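import Mathlib

/-!
# Periodic solutions and global stability of a rational recurrence

A solution `(x_n)_{n ≥ -k}` is written here as `x : ℤ → ℝ`, only the values at `n ≥ -k` matter.
-/

open Filter Topology

namespace Pool.Agent.Results.MP_2e7467_an.StabilityFromNoPeriods

/-- `x` (restricted to the indices `n ≥ -k`) is the solution of the recurrence generated from
nonnegative initial values `x_{-k}, …, x_0`. -/
def IsSolution (k : ℕ) (A : ℝ) (β B : Fin (k + 1) → ℝ) (x : ℤ → ℝ) : Prop :=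
  (∀ n : ℤ, -(k : ℤ) ≤ n → n ≤ 0 → 0 ≤ x n) ∧
  ∀ n : ℤ, 0 ≤ n →
    x (n + 1) = (∑ i : Fin (k + 1), β i * x (n - (i : ℕ))) /
      (A + ∑ i : Fin (k + 1), B i * x (n - (i : ℕ)))

/-- `p` is a period of the solution: `x_{n+p} = x_n` for all `n ≥ -k`. -/
def IsPeriod (k : ℕ) (x : ℤ → ℝ) (p : ℕ) : Prop :=
  ∀ n : ℤ, -(k : ℤ) ≤ n → x (n + p) = x n

/-- `p` is the prime period: the least positive integer which is a period. -/
def HasPrimePeriod (k : ℕ) (x : ℤ → ℝ) (p : ℕ) : Prop :=
  1 ≤ p ∧ IsPeriod k x p ∧ ∀ q : ℕ, 1 ≤ q → IsPeriod k x q → p ≤ q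

/-- Stability of the zero equilibrium. -/
def ZeroStable (k : ℕ) (A : ℝ) (β B : Fin (k + 1) → ℝ) : Prop :=
  ∀ ε : ℝ, 0 < ε → ∃ δ : ℝ, 0 < δ ∧ ∀ x : ℤ → ℝ, IsSolution k A β B x →
    (∀ j : ℤ, -(k : ℤ) ≤ j → j ≤ 0 → x j < δ) → ∀ n : ℤ, -(k : ℤ) ≤ n → x n < ε

/-- The zero equilibrium is globally asymptotically stable: it is stable and every solution
tends to zero. -/
def ZeroGAS (k : ℕ) (A : ℝ) (β B : Fin (k + 1) → ℝ) : Prop :=
  ZeroStable k A β B ∧
  ∀ x : ℤ → ℝ, IsSolution k A β B x → Tendsto x atTop (𝓝 0)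

section

variable {k : ℕ} {A : ℝ} {β B : Fin (k + 1) → ℝ}

theorem nonneg (hA : 0 < A) (hβ : ∀ i, 0 ≤ β i) (hB : ∀ i, 0 ≤ B i) {x : ℤ → ℝ}
    (hx : IsSolution k A β B x) : ∀ n : ℤ, -(k : ℤ) ≤ n → 0 ≤ x n := by
  have key : ∀ N : ℕ, ∀ n : ℤ, -(k : ℤ) ≤ n → n ≤ N → 0 ≤ x n := by
    intro N
    induction N with
    | zero => intro n h1 h2; exact hx.1 n h1 (by simpa using h2)
    | succ N ih =>
      intro n h1 h2
      by_cases h3 : n ≤ N
      · exact ih n h1 h3
      · have h4 : n = (N : ℤ) + 1 := by push_cast at h2; lia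
        rw [h4, hx.2 N (by positivity)]
        have h5 : ∀ i : Fin (k + 1), 0 ≤ x ((N : ℤ) - (i : ℕ)) := by
          intro i
          apply ih _ (by have := i.2; lia) (by lia)
        apply div_nonneg
        · exact Finset.sum_nonneg fun i _ => mul_nonneg (hβ i) (h5 i)
        · have := Finset.sum_nonneg fun i (_ : i ∈ Finset.univ) => mul_nonneg (hB i) (h5 i)
          linarith
  intro n hn
  exact key n.toNat n hn (by lia)

/-- An upper bound of a window of `k+1` consecutive terms is an upper bound of everything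
after. -/
theorem le_of_window (hA : 0 < A) (hβ : ∀ i, 0 ≤ β i) (hB : ∀ i, 0 ≤ B i)
    (hAs : A = ∑ i, β i) {x : ℤ → ℝ}
    (hx : IsSolution k A β B x) {c : ℝ} {m : ℤ} (hm : 0 ≤ m)
    (hc : ∀ j : ℤ, m - k ≤ j → j ≤ m → x j ≤ c) : ∀ n : ℤ, m - k ≤ n → x n ≤ c := by
  have key : ∀ N : ℕ, ∀ n : ℤ, m - k ≤ n → n ≤ m + N → x n ≤ c := by
    intro N
    induction N with
    | zero => intro n h1 h2; exact hc n h1 (by simpa using h2)
    | succ N ih =>
      intro n h1 h2
      by_cases h3 : n ≤ m + N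
      · exact ih n h1 h3
      · have h4 : n = (m + N : ℤ) + 1 := by push_cast at h2; lia
        rw [h4, hx.2 (m + N) (by positivity)]
        have h5 : ∀ i : Fin (k + 1), 0 ≤ x ((m + N : ℤ) - (i : ℕ)) := by
          intro i
          apply nonneg hA hβ hB hx
          have := i.2; lia
        have h6 : ∀ i : Fin (k + 1), x ((m + N : ℤ) - (i : ℕ)) ≤ c := by
          intro i
          apply ih _ (by have := i.2; lia) (by lia)
        have h7 := Finset.sum_nonneg fun i (_ : i ∈ Finset.univ) => mul_nonneg (hB i) (h5 i)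
        have hc0 : 0 ≤ c := (h5 0).trans (h6 0)
        rw [div_le_iff₀ (by linarith)]
        calc ∑ i : Fin (k + 1), β i * x ((m + N : ℤ) - (i : ℕ))
            ≤ ∑ i : Fin (k + 1), β i * c :=
              Finset.sum_le_sum fun i _ => mul_le_mul_of_nonneg_left (h6 i) (hβ i)
          _ = c * A := by rw [← Finset.sum_mul, ← hAs, mul_comm]
          _ ≤ c * (A + ∑ i : Fin (k + 1), B i * x ((m + N : ℤ) - (i : ℕ))) := by
              apply mul_le_mul_of_nonneg_left _ hc0
              linarith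
  intro n hn
  exact key (n - m).toNat n hn (by lia)

theorem stable (hA : 0 < A) (hβ : ∀ i, 0 ≤ β i) (hB : ∀ i, 0 ≤ B i)
    (hAs : A = ∑ i, β i) : ZeroStable k A β B := by
  intro ε hε
  refine ⟨ε / 2, by positivity, fun x hx hj n hn => ?_⟩
  have := le_of_window hA hβ hB hAs hx (c := ε / 2) (m := 0) le_rfl
    (fun j h1 h2 => (hj j (by simpa using h1) h2).le) n (by simpa using hn)
  linarith

/-- The set of delays which carry a positive numerator coefficient. -/
def S (β : Fin (k + 1) → ℝ) : Set ℕ := {s | ∃ i : Fin (k + 1), 0 < β i ∧ s = (i : ℕ) + 1}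

theorem exists_B_dvd (hA : 0 < A) (hβ : ∀ i, 0 ≤ β i) (hB : ∀ i, 0 ≤ B i)
    (hβs : 0 < ∑ i, β i) (hBs : 0 < ∑ i, B i) (hAs : A = ∑ i, β i)
    (h : ¬ ∃ x : ℤ → ℝ, IsSolution k A β B x ∧ ∃ p : ℕ, 2 ≤ p ∧ HasPrimePeriod k x p) :
    ∃ i : Fin (k + 1), 0 < B i ∧ Nat.setGcd (S β) ∣ (i : ℕ) + 1 := by
  by_contra hcon
  push Not at hcon
  apply h
  set g := Nat.setGcd (S β) with hg
  obtain ⟨i0, hi0⟩ : ∃ i, 0 < β i := by
    by_contra h'
    push Not at h'
    exact absurd (Finset.sum_nonpos fun i _ => h' i) (by linarith)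
  obtain ⟨i1, hi1⟩ : ∃ i, 0 < B i := by
    by_contra h'
    push Not at h'
    exact absurd (Finset.sum_nonpos fun i _ => h' i) (by linarith)
  have hg0 : g ≠ 0 := by
    intro h0
    have := Nat.setGcd_dvd_of_mem (s := S β) (n := (i0 : ℕ) + 1) ⟨i0, hi0, rfl⟩
    rw [← hg, h0, zero_dvd_iff] at this
    lia
  have hg1 : g ≠ 1 := by
    intro h1
    exact hcon i1 hi1 (by rw [h1]; exact one_dvd _)
  have hSd : ∀ i : Fin (k + 1), 0 < β i → (g : ℤ) ∣ ((i : ℕ) : ℤ) + 1 := by
    intro i hi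
    have := Nat.setGcd_dvd_of_mem (s := S β) (n := (i : ℕ) + 1) ⟨i, hi, rfl⟩
    exact_mod_cast this
  have hTd : ∀ i : Fin (k + 1), 0 < B i → ¬ (g : ℤ) ∣ ((i : ℕ) : ℤ) + 1 := by
    intro i hi h2
    exact hcon i hi (by exact_mod_cast h2)
  refine ⟨fun n => if (g : ℤ) ∣ n then 1 else 0, ⟨?_, ?_⟩, g, by lia, by lia, ?_, ?_⟩
  · intro n _ _
    dsimp only
    split_ifs <;> norm_num
  · intro n _
    dsimp only
    have hnum : ∀ i : Fin (k + 1), β i * (if (g : ℤ) ∣ n - ((i : ℕ) : ℤ) then (1 : ℝ) else 0) =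
        β i * (if (g : ℤ) ∣ n + 1 then (1 : ℝ) else 0) := by
      intro i
      rcases (hβ i).eq_or_lt with h0 | h0
      · rw [← h0]; ring
      · have e : (g : ℤ) ∣ n - ((i : ℕ) : ℤ) ↔ (g : ℤ) ∣ n + 1 := by
          have := hSd i h0
          constructor
          · intro h1
            have := dvd_add h1 this
            ring_nf at this ⊢
            exact this
          · intro h1
            have := dvd_sub h1 this
            ring_nf at this ⊢
            exact this
        simp only [e]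
    rw [Finset.sum_congr rfl fun i _ => hnum i, ← Finset.sum_mul, ← hAs]
    split_ifs with h1
    · have hden : ∀ i : Fin (k + 1),
          B i * (if (g : ℤ) ∣ n - ((i : ℕ) : ℤ) then (1 : ℝ) else 0) = 0 := by
        intro i
        rcases (hB i).eq_or_lt with h0 | h0
        · rw [← h0]; ring
        · rw [if_neg, mul_zero]
          intro h2
          apply hTd i h0
          have := dvd_sub h1 h2
          ring_nf at this ⊢
          exact this
      rw [Finset.sum_congr rfl fun i _ => hden i]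
      simp
      field_simp
    · simp
  · intro n _
    dsimp only
    simp
  · intro q hq1 hq2
    have := hq2 0 (by simp)
    dsimp only at this
    simp only [zero_add, dvd_zero, if_true] at this
    split_ifs at this with h3
    · exact Nat.le_of_dvd (by lia) (by exact_mod_cast h3)
    · norm_num at this

theorem tendsto_zero (hA : 0 < A) (hβ : ∀ i, 0 ≤ β i) (hB : ∀ i, 0 ≤ B i)
    (hAs : A = ∑ i, β i)
    (h : ∃ i : Fin (k + 1), 0 < B i ∧ Nat.setGcd (S β) ∣ (i : ℕ) + 1)
    {x : ℤ → ℝ} (hx : IsSolution k A β B x) : Tendsto x atTop (𝓝 0) := by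
  classical
  have h0 := nonneg hA hβ hB hx
  -- the window `n, …, n+k` has a maximum `M n = x (m n)`
  have hmax : ∀ n : ℕ, ∃ m : ℤ, (n : ℤ) ≤ m ∧ m ≤ n + k ∧
      ∀ j : ℤ, (n : ℤ) ≤ j → j ≤ n + k → x j ≤ x m := by
    intro n
    obtain ⟨m, hm1, hm2⟩ := Finset.exists_max_image (Finset.Icc (n : ℤ) (n + k)) x
      ⟨n, by simp⟩
    rw [Finset.mem_Icc] at hm1
    exact ⟨m, hm1.1, hm1.2, fun j h1 h2 => hm2 j (Finset.mem_Icc.mpr ⟨h1, h2⟩)⟩
  choose m hm1 hm2 hm3 using hmax
  have hub : ∀ n : ℕ, ∀ j : ℤ, (n : ℤ) ≤ j → x j ≤ x (m n) := by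
    intro n j hj
    apply le_of_window hA hβ hB hAs hx (m := n + k) (by positivity) _ j (by lia)
    intro j h1 h2
    exact hm3 n j (by lia) h2
  have hanti : Antitone fun n : ℕ => x (m n) := by
    intro a b hab
    apply hub a
    have := hm1 b
    have : (a : ℤ) ≤ b := by exact_mod_cast hab
    lia
  have hpos : ∀ n, 0 ≤ x (m n) := fun n => h0 _ (by have := hm1 n; lia)
  have hbdd : BddBelow (Set.range fun n : ℕ => x (m n)) := ⟨0, by
    rintro _ ⟨n, rfl⟩
    exact hpos n⟩
  set L := ⨅ n : ℕ, x (m n) with hL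
  have hlim : Tendsto (fun n : ℕ => x (m n)) atTop (𝓝 L) := tendsto_atTop_ciInf hanti hbdd
  have hL0 : 0 ≤ L := le_ciInf hpos
  -- it suffices that `L = 0`
  suffices hLz : L = 0 by
    rw [Metric.tendsto_atTop]
    intro ε hε
    rw [hLz, Metric.tendsto_atTop] at hlim
    obtain ⟨N, hN⟩ := hlim ε hε
    refine ⟨N, fun n hn => ?_⟩
    have h1 := hub N n hn
    have h2 := hN N le_rfl
    rw [Real.dist_eq, sub_zero, abs_of_nonneg (hpos N)] at h2
    have h3 := h0 n (by lia)
    rw [Real.dist_eq, sub_zero, abs_of_nonneg h3]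
    linarith
  by_contra hLne
  have hLpos : 0 < L := lt_of_le_of_ne hL0 (Ne.symm hLne)
  -- limit along an ultrafilter
  set U : Ultrafilter ℕ := hyperfilter ℕ with hU
  have hUtop : (U : Filter ℕ) ≤ atTop := Nat.hyperfilter_le_atTop
  set C := x (m 0) with hC
  have hz : ∀ u : ℕ, ∃ z : ℝ, Tendsto (fun n : ℕ => x (m n - u)) U (𝓝 z) := by
    intro u
    have hK : IsCompact (Set.Icc (0 : ℝ) C) := isCompact_Icc
    have hmem : ∀ᶠ n : ℕ in (U : Filter ℕ), x (m n - u) ∈ Set.Icc (0 : ℝ) C := by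
      apply hUtop
      filter_upwards [eventually_ge_atTop u] with n hn
      have h1 := hm1 n
      have h2 : (u : ℤ) ≤ n := by exact_mod_cast hn
      exact ⟨h0 _ (by lia), hub 0 _ (by push_cast; lia)⟩
    obtain ⟨z, _, hz⟩ := hK.ultrafilter_le_nhds (U.map fun n : ℕ => x (m n - u))
      (Filter.le_principal_iff.mpr hmem)
    exact ⟨z, hz⟩
  choose z hz using hz
  have hz0 : z 0 = L := by
    have h1 := hz 0
    simp only [Nat.cast_zero, sub_zero] at h1
    exact tendsto_nhds_unique h1 (hlim.mono_left hUtop)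
  have hzL : ∀ u, z u ≤ L := by
    intro u
    apply le_of_forall_pos_le_add
    intro ε hε
    have h1 : ∀ᶠ n : ℕ in atTop, x (m n) < L + ε :=
      hlim.eventually_lt_const (by linarith)
    obtain ⟨N, hN⟩ := h1.exists
    apply le_of_tendsto (hz u)
    apply hUtop
    filter_upwards [eventually_ge_atTop (N + u)] with n hn
    have h2 := hm1 n
    have h3 : ((N + u : ℕ) : ℤ) ≤ n := by exact_mod_cast hn
    push_cast at h3
    exact (hub N _ (by lia)).trans hN.le
  have hzrec : ∀ u : ℕ, z u * (A + ∑ i : Fin (k + 1), B i * z (u + 1 + i)) =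
      ∑ i : Fin (k + 1), β i * z (u + 1 + i) := by
    intro u
    have h1 : Tendsto (fun n : ℕ => x (m n - u) *
        (A + ∑ i : Fin (k + 1), B i * x (m n - ((u + 1 + i : ℕ) : ℤ)))) U
        (𝓝 (z u * (A + ∑ i : Fin (k + 1), B i * z (u + 1 + i)))) :=
      (hz u).mul (tendsto_const_nhds.add (tendsto_finsetSum _ fun i _ =>
        (hz (u + 1 + i)).const_mul (B i)))
    have h2 : Tendsto (fun n : ℕ => ∑ i : Fin (k + 1), β i * x (m n - ((u + 1 + i : ℕ) : ℤ))) U
        (𝓝 (∑ i : Fin (k + 1), β i * z (u + 1 + i))) :=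
      tendsto_finsetSum _ fun i _ => (hz (u + 1 + i)).const_mul (β i)
    apply tendsto_nhds_unique (h1.congr' _) h2
    apply hUtop
    filter_upwards [eventually_ge_atTop (u + 1)] with n hn
    have h3 := hm1 n
    have h4 : ((u + 1 : ℕ) : ℤ) ≤ n := by exact_mod_cast hn
    push_cast at h4
    have h5 := hx.2 (m n - u - 1) (by lia)
    have h6 : m n - u - 1 + 1 = m n - u := by ring
    have h7 : ∀ i : Fin (k + 1), m n - ((u + 1 + i : ℕ) : ℤ) = m n - u - 1 - (i : ℕ) := by
      intro i; push_cast; ring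
    rw [h6] at h5
    simp only [h7]
    have h8 := Finset.sum_nonneg fun i (_ : i ∈ (Finset.univ : Finset (Fin (k + 1)))) =>
      mul_nonneg (hB i) (h0 (m n - u - 1 - (i : ℕ)) (by have := i.2; lia))
    rw [h5, div_mul_cancel₀]
    linarith
  -- consequence of equality
  have hstep : ∀ u, z u = L → ∀ i : Fin (k + 1),
      (0 < β i → z (u + 1 + i) = L) ∧ (0 < B i → z (u + 1 + i) = 0) := by
    intro u hu i
    have hznn : ∀ v, 0 ≤ z v := by
      intro v
      apply ge_of_tendsto (hz v)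
      apply hUtop
      filter_upwards [eventually_ge_atTop v] with n hn
      have h2 := hm1 n
      have h3 : (v : ℤ) ≤ n := by exact_mod_cast hn
      exact h0 _ (by lia)
    have h1 := hzrec u
    rw [hu] at h1
    have h2 : 0 ≤ ∑ i : Fin (k + 1), β i * (L - z (u + 1 + i)) :=
      Finset.sum_nonneg fun i _ => mul_nonneg (hβ i) (by linarith [hzL (u + 1 + i)])
    have h3 : 0 ≤ ∑ i : Fin (k + 1), B i * z (u + 1 + i) :=
      Finset.sum_nonneg fun i _ => mul_nonneg (hB i) (hznn _)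
    have h4 : ∑ i : Fin (k + 1), β i * (L - z (u + 1 + i)) =
        L * A - ∑ i : Fin (k + 1), β i * z (u + 1 + i) := by
      simp only [mul_sub, Finset.sum_sub_distrib]
      rw [← Finset.sum_mul, ← hAs, mul_comm]
    have h5 : L * ∑ i : Fin (k + 1), B i * z (u + 1 + i) ≤ 0 := by
      nlinarith [h1, h2, h4]
    have h6 : ∑ i : Fin (k + 1), B i * z (u + 1 + i) = 0 := by
      apply le_antisymm _ h3
      by_contra hcon
      push Not at hcon
      have := mul_pos hLpos hcon
      linarith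
    have h7 : ∑ i : Fin (k + 1), β i * (L - z (u + 1 + i)) = 0 := by
      rw [h4, ← h1, h6]; ring
    constructor
    · intro hb
      have := (Finset.sum_eq_zero_iff_of_nonneg fun i _ =>
        mul_nonneg (hβ i) (by linarith [hzL (u + 1 + i)])).mp h7 i (Finset.mem_univ i)
      rcases mul_eq_zero.mp this with h8 | h8
      · linarith
      · linarith
    · intro hb
      have := (Finset.sum_eq_zero_iff_of_nonneg fun i _ =>
        mul_nonneg (hB i) (hznn _)).mp h6 i (Finset.mem_univ i)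
      rcases mul_eq_zero.mp this with h8 | h8
      · linarith
      · exact h8
  have hclos : ∀ v ∈ AddSubmonoid.closure (S β), ∀ u, z u = L → z (u + v) = L := by
    intro v hv
    induction hv using AddSubmonoid.closure_induction with
    | mem v hv =>
      obtain ⟨i, hi, rfl⟩ := hv
      intro u hu
      have := (hstep u hu i).1 hi
      rw [show u + ((i : ℕ) + 1) = u + 1 + i by ring]
      exact this
    | zero => intro u hu; simpa using hu
    | add a b _ _ ha hb =>
      intro u hu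
      rw [← add_assoc]
      exact hb _ (ha u hu)
  obtain ⟨i, hi, hdvd⟩ := h
  obtain ⟨N, hN⟩ := Nat.exists_mem_closure_of_ge (S β)
  set g := Nat.setGcd (S β) with hg
  have hgpos : 0 < g := by
    rcases Nat.eq_zero_or_pos g with h1 | h1
    · rw [h1, zero_dvd_iff] at hdvd; lia
    · exact h1
  have e1 : z (0 + g * N) = L :=
    hclos (g * N) (hN _ (Nat.le_mul_of_pos_left N hgpos) (Dvd.intro _ rfl)) 0 hz0
  have e2 : z (0 + (g * N + (i + 1))) = L :=
    hclos _ (hN _ ((Nat.le_mul_of_pos_left N hgpos).trans (by lia))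
      ((Nat.dvd_add_right (Dvd.intro _ rfl)).mpr hdvd)) 0 hz0
  have e3 := (hstep _ e1 i).2 hi
  rw [show 0 + g * N + 1 + (i : ℕ) = 0 + (g * N + (i + 1)) by ring] at e3
  rw [e2] at e3
  exact hLne e3

end

/-- If `A = ∑ β_i` and the recurrence has no solution of prime period at least two, then its zero
equilibrium is globally asymptotically stable. -/
theorem result (k : ℕ) (A : ℝ) (β B : Fin (k + 1) → ℝ) (hA : 0 < A)
    (hβ : ∀ i, 0 ≤ β i) (hB : ∀ i, 0 ≤ B i) (hβs : 0 < ∑ i, β i) (hBs : 0 < ∑ i, B i)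
    (hAs : A = ∑ i, β i)
    (h : ¬ ∃ x : ℤ → ℝ, IsSolution k A β B x ∧ ∃ p : ℕ, 2 ≤ p ∧ HasPrimePeriod k x p) :
    ZeroGAS k A β B :=
  ⟨stable hA hβ hB hAs, fun _ hx =>
    tendsto_zero hA hβ hB hAs (exists_B_dvd hA hβ hB hβs hBs hAs h) hx⟩

end Pool.Agent.Results.MP_2e7467_an.StabilityFromNoPeriods
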